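import Pool.Agent.H64.XS.Stm
import Pool.Agent.H50.SM.Alg

/-!
# Project XS (helper64), module ALGJ (helper31): the constrained solutions persist
-/

set_option autoImplicit false

namespace Pool.Agent.H31.XS

open Filter Topology
open scoped InnerProductSpace ComplexConjugate
open Pool.Agent.Q130.TR Pool.Agent.Q135.TR
open Pool.Agent.Q76.TR (HS_adj)
open Pool.Agent.H50.SM (df)
open Pool.Agent.H50.SM.ALG
open Pool.Agent.H64.XS (S_ALGJ)
open ContinuousLinearMap (adjoint)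

section

variable {E : Type*} [NormedAddCommGroup E] [NormedSpace ℂ E] [CompleteSpace E]

/-- persistence, abstract form -/
theorem pertJ (Pj A R : E →L[ℂ] E) (hR : ∀ y, Pj y = y → A (R y) = y)
    (hA : ∀ y, Pj (A y) = A y) (c₀ : E) (hc₀ : A c₀ = 0) (ε : ℝ) (hε : 0 < ε) :
    ∃ κ : ℝ, 0 < κ ∧ ∀ A₁ : E →L[ℂ] E, (∀ y, Pj (A₁ y) = A₁ y) → ‖A₁ - A‖ ≤ κ →
      ∃ c, A₁ c = 0 ∧ ‖c - c₀‖ ≤ ε := by
  obtain ⟨κ, hκ⟩ : ∃ κ : ℝ, κ = min (1 / (2 * (‖R‖ + 1))) (ε / (2 * (‖R‖ + 1) * (‖c₀‖ + 1))) :=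
    ⟨_, rfl⟩
  have hκ0 : 0 < κ := by rw [hκ]; exact lt_min (by positivity) (by positivity)
  have hκ1 : κ * (2 * (‖R‖ + 1)) ≤ 1 := by
    have : κ ≤ 1 / (2 * (‖R‖ + 1)) := by rw [hκ]; exact min_le_left _ _
    rwa [le_div_iff₀ (by positivity)] at this
  have hκ2 : κ * (2 * (‖R‖ + 1) * (‖c₀‖ + 1)) ≤ ε := by
    have : κ ≤ ε / (2 * (‖R‖ + 1) * (‖c₀‖ + 1)) := by rw [hκ]; exact min_le_right _ _
    rwa [le_div_iff₀ (by positivity)] at this
  refine ⟨κ, hκ0, fun A₁ hA₁ hn => ?_⟩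
  have hΔ : ‖(A₁ - A) * R‖ ≤ 1 / 2 := by
    have h1 : ‖(A₁ - A) * R‖ ≤ κ * ‖R‖ :=
      (norm_mul_le _ _).trans (mul_le_mul_of_nonneg_right hn (norm_nonneg _))
    nlinarith [norm_nonneg R]
  obtain ⟨e, he⟩ : ∃ e, e = (A₁ - A) c₀ := ⟨_, rfl⟩
  have hen : ‖e‖ ≤ κ * ‖c₀‖ := by
    rw [he]
    exact ((A₁ - A).le_opNorm _).trans (mul_le_mul_of_nonneg_right hn (norm_nonneg _))
  have hPe : Pj e = e := by
    rw [he, sub_apply, map_sub, hA₁, hA]
  obtain ⟨y, hy1, hy2⟩ := solve ((A₁ - A) * R) hΔ e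
  have hPΔ : Pj (((A₁ - A) * R) y) = ((A₁ - A) * R) y := by
    simp only [mul_apply_eq_comp, sub_apply, map_sub, hA₁, hA]
  have hPy : Pj y = y := by
    have h1 : y = e - ((A₁ - A) * R) y := by rw [← hy1]; abel
    rw [h1, map_sub, hPe, hPΔ]
  refine ⟨c₀ - R y, ?_, ?_⟩
  · have h1 : A₁ (R y) = y + ((A₁ - A) * R) y := by
      simp only [mul_apply_eq_comp, sub_apply, hR y hPy]
      abel
    rw [map_sub, h1, hy1, he, sub_apply, hc₀, sub_zero, sub_self]
  · rw [sub_sub_cancel_left, norm_neg]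
    have h1 : ‖R y‖ ≤ ‖R‖ * (2 * (κ * ‖c₀‖)) := by
      refine (R.le_opNorm y).trans (mul_le_mul_of_nonneg_left ?_ (norm_nonneg _))
      linarith
    have h2 : ‖R‖ * (2 * (κ * ‖c₀‖)) ≤ κ * (2 * (‖R‖ + 1) * (‖c₀‖ + 1)) := by
      have h3 := norm_nonneg R
      have h4 := norm_nonneg c₀
      nlinarith [mul_nonneg hκ0.le h3, mul_nonneg hκ0.le h4, mul_nonneg (mul_nonneg hκ0.le h3) h4]
    linarith

end

section

variable {E : Type*} [NormedAddCommGroup E] [InnerProductSpace ℂ E] [CompleteSpace E]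

/-- a bounded right inverse -/
theorem rinv (Pj F : E →L[ℂ] E) (hF : IsCompactOperator F) (hF' : IsCompactOperator (adjoint F))
    (hP : ∀ x, Pj (Pj x) = Pj x) (hPa : adjoint Pj = Pj) (hPF : ∀ x, Pj (F x) = F x)
    (hd : ∀ d, Pj d = d → adjoint F d = d → d = 0) :
    ∃ R : E →L[ℂ] E, ∀ y, Pj y = y → (Pj - F) (R y) = y := by
  obtain ⟨A, hA⟩ : ∃ A : E →L[ℂ] E, A = Pj - F := ⟨_, rfl⟩
  have hA' : adjoint A = Pj - adjoint F := by rw [hA, map_sub, hPa]
  obtain ⟨K, hK⟩ : ∃ K : E →L[ℂ] E, K = Pj * adjoint F + F * Pj - F * adjoint F := ⟨_, rfl⟩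
  have hKc : IsCompactOperator K := by
    rw [hK]
    exact ((hF'.clm_comp Pj).add (hF.comp_clm Pj)).sub (hF.comp_clm (adjoint F))
  have hKA : ∀ x, x - K x = (x - Pj x) + A (adjoint A x) := by
    intro x
    rw [hK, hA', hA]
    simp only [sub_apply, add_apply, map_sub, mul_apply_eq_comp, hP]
    abel
  have hPi : ∀ x, ⟪x, x - Pj x⟫_ℂ = ⟪x - Pj x, x - Pj x⟫_ℂ := by
    intro x
    have h1 : ⟪Pj x, x - Pj x⟫_ℂ = 0 := by
      nth_rewrite 1 [← hPa]
      rw [ContinuousLinearMap.adjoint_inner_left, map_sub, hP, sub_self, inner_zero_right]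
    rw [inner_sub_left (x := x) (y := Pj x), h1, sub_zero]
  have hne : ¬ Module.End.HasEigenvalue (K : Module.End ℂ E) 1 := by
    intro he
    obtain ⟨x, hx⟩ := he.exists_hasEigenvector
    have hx1 : K x = x := by
      have := hx.apply_eq_smul
      simpa using this
    apply hx.2
    have h1 := hKA x
    rw [hx1, sub_self] at h1
    have h2 : ⟪x, (x - Pj x) + A (adjoint A x)⟫_ℂ = 0 := by rw [← h1, inner_zero_right]
    rw [inner_add_right, hPi, ← ContinuousLinearMap.adjoint_inner_left] at h2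
    have h3 : (‖x - Pj x‖ : ℝ) ^ 2 + ‖adjoint A x‖ ^ 2 = 0 := by
      rw [inner_self_eq_norm_sq_to_K, inner_self_eq_norm_sq_to_K] at h2
      have h7 : (((‖x - Pj x‖ ^ 2 + ‖adjoint A x‖ ^ 2 : ℝ)) : ℂ) = 0 := by
        push_cast
        exact h2
      exact_mod_cast h7
    have h4 : ‖x - Pj x‖ = 0 := by
      have : 0 ≤ ‖adjoint A x‖ ^ 2 := by positivity
      nlinarith [norm_nonneg (x - Pj x)]
    have h5 : ‖adjoint A x‖ = 0 := by
      have : 0 ≤ ‖x - Pj x‖ ^ 2 := by positivity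
      nlinarith [norm_nonneg (adjoint A x)]
    rw [norm_eq_zero] at h4 h5
    have h6 : Pj x = x := (sub_eq_zero.1 h4).symm
    apply hd x h6
    rw [hA', sub_apply, h6] at h5
    exact (sub_eq_zero.1 h5).symm
  have hres := (hKc.hasEigenvalue_or_mem_resolventSet one_ne_zero).resolve_left hne
  rw [spectrum.mem_resolventSet_iff] at hres
  obtain ⟨u, hu⟩ := hres
  have hu1 : ∀ x, (u : E →L[ℂ] E) x = x - K x := by
    intro x
    rw [hu]
    simp
  refine ⟨adjoint A * (↑u⁻¹ : E →L[ℂ] E), fun y hy => ?_⟩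
  rw [← hA]
  obtain ⟨w, hw⟩ : ∃ w, w = (↑u⁻¹ : E →L[ℂ] E) y := ⟨_, rfl⟩
  have h1 : (w - Pj w) + A (adjoint A w) = y := by
    rw [← hKA, ← hu1, hw]
    have h2 : (u : E →L[ℂ] E) * (↑u⁻¹ : E →L[ℂ] E) = 1 := Units.mul_inv u
    exact congrArg (fun T : E →L[ℂ] E => T y) h2
  have hPA : ∀ x, Pj (A x) = A x := by
    intro x
    rw [hA, sub_apply, map_sub, hP, hPF]
  have h3 : w - Pj w = 0 := by
    have h4 := congrArg (fun x => Pj x) h1
    simp only [map_add, map_sub, hP, sub_self, hPA, hy, zero_add] at h4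
    rw [h4] at h1
    exact add_eq_right.1 h1
  rw [h3, zero_add] at h1
  rw [mul_apply_eq_comp, ← hw]
  exact h1

end

open Classical in
/-- the part with indices in `J` -/
noncomputable def cut (J : Set ℕ) (c : ℕ → ℂ) (i : ℕ) : ℂ := if i ∈ J then c i else 0

lemma cut_in {J : Set ℕ} {c : ℕ → ℂ} {i : ℕ} (hi : i ∈ J) : cut J c i = c i := by
  unfold cut; rw [if_pos hi]

lemma cut_out {J : Set ℕ} {c : ℕ → ℂ} {i : ℕ} (hi : i ∉ J) : cut J c i = 0 := by
  unfold cut; rw [if_neg hi]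

lemma cut_le (J : Set ℕ) (c : ℕ → ℂ) (i : ℕ) : ‖cut J c i‖ ≤ ‖c i‖ := by
  by_cases hi : i ∈ J
  · rw [cut_in hi]
  · rw [cut_out hi, norm_zero]; exact norm_nonneg _

lemma cut_le_sq (J : Set ℕ) (c : ℕ → ℂ) (i : ℕ) : ‖cut J c i‖ ^ 2 ≤ ‖c i‖ ^ 2 :=
  pow_le_pow_left₀ (norm_nonneg _) (cut_le J c i) 2

lemma sq_cut (J : Set ℕ) {c : ℕ → ℂ} (hc : Sq c) : Sq (cut J c) :=
  Summable.of_nonneg_of_le (fun _ => by positivity) (cut_le_sq J c) hc

lemma n2_cut (J : Set ℕ) {c : ℕ → ℂ} (hc : Sq c) : n2 (cut J c) ≤ n2 c :=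
  Real.sqrt_le_sqrt ((sq_cut J hc).tsum_le_tsum (cut_le_sq J c) hc)

/-- the projection to the coordinates in `J` -/
noncomputable def pr (J : Set ℕ) : EE →L[ℂ] EE :=
  LinearMap.mkContinuous
    { toFun := fun x => vec (cut J (fun j => x j)) (sq_cut J (sq_of x))
      map_add' := by
        intro x y
        ext i
        change cut J (fun j => (x + y) j) i = cut J (fun j => x j) i + cut J (fun j => y j) i
        by_cases hi : i ∈ J
        · rw [cut_in hi, cut_in hi, cut_in hi]; rfl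
        · rw [cut_out hi, cut_out hi, cut_out hi, add_zero]
      map_smul' := by
        intro a x
        ext i
        change cut J (fun j => (a • x) j) i = a • cut J (fun j => x j) i
        by_cases hi : i ∈ J
        · rw [cut_in hi, cut_in hi]; rfl
        · rw [cut_out hi, cut_out hi, smul_zero] } 1 (by
    intro x
    change ‖vec (cut J (fun j => x j)) (sq_cut J (sq_of x))‖ ≤ 1 * ‖x‖
    rw [norm_vec, norm_eq, one_mul]
    exact n2_cut J (sq_of x))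

lemma pr_in {J : Set ℕ} (x : EE) {i : ℕ} (hi : i ∈ J) : pr J x i = x i := cut_in hi

lemma pr_out {J : Set ℕ} (x : EE) {i : ℕ} (hi : i ∉ J) : pr J x i = 0 := cut_out hi

lemma pr_pr (J : Set ℕ) (x : EE) : pr J (pr J x) = pr J x := by
  ext i
  by_cases hi : i ∈ J
  · rw [pr_in _ hi]
  · rw [pr_out _ hi, pr_out _ hi]

lemma pr_adj (J : Set ℕ) : adjoint (pr J) = pr J := by
  symm
  rw [ContinuousLinearMap.eq_adjoint_iff]
  intro x y
  rw [lp.inner_eq_tsum, lp.inner_eq_tsum]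
  apply tsum_congr
  intro i
  by_cases hi : i ∈ J
  · rw [pr_in _ hi, pr_in _ hi]
  · rw [pr_out _ hi, pr_out _ hi, inner_zero_left, inner_zero_right]

open Classical in
/-- the rows with indices in `J` -/
noncomputable def rows (J : Set ℕ) (F : ℕ → ℕ → ℂ) (i j : ℕ) : ℂ := if i ∈ J then F i j else 0

lemma rows_in {J : Set ℕ} {F : ℕ → ℕ → ℂ} {i : ℕ} (hi : i ∈ J) (j : ℕ) : rows J F i j = F i j := by
  unfold rows; rw [if_pos hi]

lemma rows_out {J : Set ℕ} {F : ℕ → ℕ → ℂ} {i : ℕ} (hi : i ∉ J) (j : ℕ) : rows J F i j = 0 := by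
  unfold rows; rw [if_neg hi]

lemma rows_le (J : Set ℕ) (F : ℕ → ℕ → ℂ) (i j : ℕ) : ‖rows J F i j‖ ≤ ‖F i j‖ := by
  by_cases hi : i ∈ J
  · rw [rows_in hi]
  · rw [rows_out hi, norm_zero]; exact norm_nonneg _

lemma HS_rows (J : Set ℕ) {F : ℕ → ℕ → ℂ} (hF : HS F) : HS (rows J F) := HS_of_le hF (rows_le J F)

lemma act_rows_in {J : Set ℕ} (F : ℕ → ℕ → ℂ) (c : ℕ → ℂ) {i : ℕ} (hi : i ∈ J) :
    act (rows J F) c i = act F c i := by
  unfold act
  exact tsum_congr fun j => by rw [rows_in hi]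

lemma act_rows_out {J : Set ℕ} (F : ℕ → ℕ → ℂ) (c : ℕ → ℂ) {i : ℕ} (hi : i ∉ J) :
    act (rows J F) c i = 0 := by
  unfold act
  simp [rows_out hi]

lemma hs_mono {A B : ℕ → ℕ → ℂ} (hB : HS B) (hAB : ∀ i j, ‖A i j‖ ≤ ‖B i j‖) : hs A ≤ hs B :=
  Real.sqrt_le_sqrt ((HS_of_le hB hAB).tsum_le_tsum
    (fun p => pow_le_pow_left₀ (norm_nonneg _) (hAB p.1 p.2) 2) hB)

lemma rows_df (J : Set ℕ) (A B : ℕ → ℕ → ℂ) (i j : ℕ) :
    df (rows J A) (rows J B) i j = rows J (df A B) i j := by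
  unfold df
  by_cases hi : i ∈ J
  · rw [rows_in hi, rows_in hi, rows_in hi]
  · rw [rows_out hi, rows_out hi, rows_out hi, sub_zero]

/-- ALGJ -/
theorem algj (h : S_L2B) : S_ALGJ := by
  intro F J b hF hb hd c₀ hc₀ hFc hbc
  have hF' := HS_rows J hF
  have hadj : ∀ (A : ℕ → ℕ → ℂ) (hA : HS A), IsCompactOperator (adjoint (op h A hA)) := by
    intro A hA
    have h1 : adjoint (op h A hA) = op h (fun i j => conj (A j i)) (HS_adj hA) := by
      ext x i
      rw [adjoint_apply]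
      rfl
    rw [h1]
    exact op_compact h _ _
  have hrow : ∀ (A : ℕ → ℕ → ℂ) (hA : HS A) (x : EE),
      pr J (op h (rows J A) (HS_rows J hA) x) = op h (rows J A) (HS_rows J hA) x := by
    intro A hA x
    ext i
    by_cases hi : i ∈ J
    · rw [pr_in _ hi]
    · rw [pr_out _ hi]
      exact (act_rows_out A _ hi).symm
  obtain ⟨R, hR⟩ := rinv (pr J) (op h (rows J F) hF') (op_compact h _ _) (hadj _ _) (pr_pr J)
    (pr_adj J) (hrow F hF) (by
      intro d hd1 hd2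
      have hout : ∀ i, i ∉ J → d i = 0 := by
        intro i hi
        rw [← hd1]
        exact pr_out d hi
      ext i
      apply hd (fun j => d j) (sq_of d) hout
      intro i
      have h2 := congrArg (fun y : EE => y i) hd2
      simp only at h2
      rw [adjoint_apply] at h2
      rw [← h2]
      unfold act
      apply tsum_congr
      intro j
      change conj (rows J F j i) * d j = conj (F j i) * d j
      by_cases hj : j ∈ J
      · rw [rows_in hj]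
      · rw [hout j hj, mul_zero, mul_zero])
  have hker : ∀ (A : ℕ → ℕ → ℂ) (hA : HS A) (x : EE),
      (pr J - op h (rows J A) (HS_rows J hA)) x = 0 ↔ ∀ i ∈ J, x i = act A (fun j => x j) i := by
    intro A hA x
    rw [sub_apply, sub_eq_zero]
    constructor
    · intro h1 i hi
      have h2 := congrArg (fun y : EE => y i) h1
      simp only at h2
      rw [pr_in _ hi] at h2
      rw [h2, op_apply, act_rows_in A _ hi]
    · intro h1
      ext i
      by_cases hi : i ∈ J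
      · rw [pr_in _ hi, op_apply, act_rows_in A _ hi]
        exact h1 i hi
      · rw [pr_out _ hi, op_apply, act_rows_out A _ hi]
  obtain ⟨B, hB⟩ : ∃ B : ℝ, B = ‖∑' j, b j * c₀ j‖ := ⟨_, rfl⟩
  have hB0 : 0 < B := by rw [hB]; exact norm_pos_iff.2 hbc
  have hv : (pr J - op h (rows J F) hF') (vec c₀ hc₀) = 0 := (hker F hF _).2 hFc
  obtain ⟨ε, hε⟩ : ∃ ε : ℝ, ε = min 1 (B / (4 * (n2 b + 1))) := ⟨_, rfl⟩
  have hnb := n2_nonneg b
  have hnc := n2_nonneg c₀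
  have hε0 : 0 < ε := by rw [hε]; exact lt_min one_pos (by positivity)
  have hε1 : ε ≤ 1 := by rw [hε]; exact min_le_left _ _
  have hε2 : ε * (4 * (n2 b + 1)) ≤ B := by
    have : ε ≤ B / (4 * (n2 b + 1)) := by rw [hε]; exact min_le_right _ _
    rwa [le_div_iff₀ (by positivity)] at this
  obtain ⟨κ, hκ0, hκ⟩ := pertJ (pr J) (pr J - op h (rows J F) hF') R hR (by
    intro y
    rw [sub_apply, map_sub, pr_pr, hrow F hF]) (vec c₀ hc₀) hv ε hε0
  obtain ⟨κ', hκ'⟩ : ∃ κ' : ℝ, κ' = min κ (B / (4 * (n2 c₀ + 1))) := ⟨_, rfl⟩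
  have hκ'0 : 0 < κ' := by rw [hκ']; exact lt_min hκ0 (by positivity)
  have hκ'1 : κ' ≤ κ := by rw [hκ']; exact min_le_left _ _
  have hκ'2 : κ' * (4 * (n2 c₀ + 1)) ≤ B := by
    have : κ' ≤ B / (4 * (n2 c₀ + 1)) := by rw [hκ']; exact min_le_right _ _
    rwa [le_div_iff₀ (by positivity)] at this
  obtain ⟨L, hL⟩ : ∃ L : ℝ, L = n2 c₀ + 1 := ⟨_, rfl⟩
  have hL0 : 0 < L := by rw [hL]; positivity
  refine ⟨κ', B / 2 / L, hκ'0, by positivity, ?_⟩
  intro F₁ b₁ hF₁ hb₁ hd1 hd2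
  have hF₁' := HS_rows J hF₁
  have hdiff : ‖(pr J - op h (rows J F₁) hF₁') - (pr J - op h (rows J F) hF')‖ ≤ κ := by
    have e1 : (pr J - op h (rows J F₁) hF₁') - (pr J - op h (rows J F) hF') =
        -(op h (rows J F₁) hF₁' - op h (rows J F) hF') := by abel
    rw [e1, norm_neg, ← op_df h hF₁' hF']
    refine (op_norm_le h _ _).trans ((hs_mono (HS_df hF₁ hF) ?_).trans (hd1.trans hκ'1))
    intro i j
    rw [rows_df]
    exact rows_le J _ i j
  obtain ⟨c, hc1, hc2⟩ := hκ (pr J - op h (rows J F₁) hF₁') (by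
    intro y
    rw [sub_apply, map_sub, pr_pr, hrow F₁ hF₁]) hdiff
  have hc3 := (hker F₁ hF₁ c).1 hc1
  have hcn : ‖c‖ ≤ L := by
    have h1 : c = vec c₀ hc₀ + (c - vec c₀ hc₀) := by abel
    rw [h1]
    refine (norm_add_le _ _).trans ?_
    rw [norm_vec, hL]
    linarith
  have hLc : (L : ℂ) ≠ 0 := by exact_mod_cast hL0.ne'
  have hsc := h.2.1 ((L : ℂ)⁻¹) (fun j => c j) (sq_of c)
  have hnL : ‖((L : ℂ)⁻¹)‖ = L⁻¹ := by
    rw [norm_inv, Complex.norm_real, Real.norm_of_nonneg hL0.le]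
  refine ⟨fun j => (L : ℂ)⁻¹ * c j, hsc.1, ?_, ?_, ?_⟩
  · rw [hsc.2, ← norm_eq, hnL, inv_mul_le_iff₀ hL0, mul_one]
    exact hcn
  · intro i hi
    change (L : ℂ)⁻¹ * c i = _
    rw [act_smul, ← hc3 i hi]
  · -- the functional
    have hsub := (h.1 (fun j => b₁ j) (fun j => b j) hb₁ hb).2.1
    have hsub2 := (h.1 (fun j => c j) c₀ (sq_of c) hc₀).2.1
    have t1 := h.1 (fun j => b₁ j - b j) (fun j => c j) hsub (sq_of c)
    have t2 := h.1 b (fun j => c j - c₀ j) hb hsub2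
    have t3 := h.1 b c₀ hb hc₀
    have t4 := h.1 b₁ (fun j => c j) hb₁ (sq_of c)
    have e1 : ∑' j, b₁ j * c j = ∑' j, (b₁ j - b j) * c j + ∑' j, b j * (c j - c₀ j) +
        ∑' j, b j * c₀ j := by
      rw [← t1.2.2.2.2.1.tsum_add t2.2.2.2.2.1,
        ← (t1.2.2.2.2.1.add t2.2.2.2.2.1).tsum_add t3.2.2.2.2.1]
      exact tsum_congr fun j => by ring
    have n1 : ‖∑' j, (b₁ j - b j) * c j‖ ≤ κ' * L := by
      refine t1.2.2.2.2.2.trans ?_
      rw [← norm_eq]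
      exact mul_le_mul hd2 hcn (norm_nonneg _) hκ'0.le
    have n2' : ‖∑' j, b j * (c j - c₀ j)‖ ≤ n2 b * ε := by
      refine t2.2.2.2.2.2.trans (mul_le_mul_of_nonneg_left ?_ hnb)
      have e2 : n2 (fun j => c j - c₀ j) = ‖c - vec c₀ hc₀‖ := by
        rw [norm_eq]; rfl
      rw [e2]; exact hc2
    have hlow : B / 2 ≤ ‖∑' j, b₁ j * c j‖ := by
      have e3 : ∑' j, b j * c₀ j = ∑' j, b₁ j * c j - (∑' j, (b₁ j - b j) * c j +
          ∑' j, b j * (c j - c₀ j)) := by rw [e1]; ring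
      have e4 : B ≤ ‖∑' j, b₁ j * c j‖ + (κ' * L + n2 b * ε) := by
        rw [hB, e3]
        refine (norm_sub_le _ _).trans ?_
        exact add_le_add le_rfl ((norm_add_le _ _).trans (add_le_add n1 n2'))
      rw [hL] at e4
      nlinarith
    have e5 : ∑' j, b₁ j * ((L : ℂ)⁻¹ * c j) = (L : ℂ)⁻¹ * ∑' j, b₁ j * c j := by
      rw [← tsum_mul_left]
      exact tsum_congr fun j => by ring
    rw [e5, norm_mul, hnL, div_eq_inv_mul]
    exact mul_le_mul_of_nonneg_left hlow (by positivity)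

end Pool.Agent.H31.XS
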